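import Pool.Agent.Helper86.LP.Beta
import Pool.Agent.Helper47.LB.Dens

/-!
The Gegenbauer coefficients of caps of the sphere: exact formula, positivity, decay.
-/

set_option autoImplicit false

open MeasureTheory Set Polynomial Filter
open scoped Topology

namespace Pool.Agent.Helper34.KU

open Pool.Agent.Helper47.KP
open Pool.Agent.Helper86.LP (abs_PP_pow_le integrable_den wt_add_two)

/-- `(d - 1) P_{j+1} = (j + d) Q_{j+1} - (j + 1) t Q_j`, `Q = PP (d + 2)` -/
private theorem PQ34 {d : ℕ} (hd : 3 ≤ d) (t : ℝ) (j : ℕ) :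
    ((d : ℝ) - 1) * (PP d (j + 1)).eval t =
      (j + d) * (PP (d + 2) (j + 1)).eval t - (j + 1) * (t * (PP (d + 2) j).eval t) := by
  have hd' : (3 : ℝ) ≤ d := by exact_mod_cast hd
  have main : ∀ j : ℕ, ((d : ℝ) - 1) * (PP d (j + 1)).eval t =
      (j + d) * (PP (d + 2) (j + 1)).eval t - (j + 1) * (t * (PP (d + 2) j).eval t) ∧
      ((d : ℝ) - 1) * (PP d (j + 2)).eval t =
      (j + 1 + d) * (PP (d + 2) (j + 2)).eval t - (j + 2) * (t * (PP (d + 2) (j + 1)).eval t) := by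
    intro j
    induction j with
    | zero =>
      constructor
      · simp only [zero_add, PP_one, PP_zero, eval_X, eval_one]
        push_cast
        ring
      · have h1 := PP_rec hd 0 t
        have h2 := PP_rec (d := d + 2) (by omega) 0 t
        simp only [zero_add, PP_one, PP_zero, eval_X, eval_one] at h1 h2 ⊢
        push_cast at h1 h2 ⊢
        linear_combination h1 - h2
    | succ j ih =>
      refine ⟨?_, ?_⟩
      · have h := ih.2
        push_cast
        rw [show (j : ℝ) + 1 + 1 = j + 2 by ring]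
        exact h
      · have hj : (0 : ℝ) ≤ j := Nat.cast_nonneg j
        have hP := PP_rec hd (j + 1) t
        have h0 := PP_rec (d := d + 2) (by omega) j t
        have h1 := PP_rec (d := d + 2) (by omega) (j + 1) t
        have hne : (j : ℝ) + d ≠ 0 := by
          have : 0 < (j : ℝ) + d := by linarith
          exact this.ne'
        apply mul_left_cancel₀ hne
        push_cast at hP h0 h1 ⊢
        rw [show j + 1 + 2 = j + 3 by ring, show j + 1 + 1 = j + 2 by ring] at hP h1 ⊢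
        linear_combination ((d : ℝ) - 1) * hP + (2 * j + 2 + d) * t * ih.2 - (j + 2) * ih.1 -
          (j + d) * h1 + (j + 2) * t * h0
  exact (main j).1

private theorem hasDerivAt_wt34 (D : ℕ) {u : ℝ} (hu : u ∈ Ioo (-1 : ℝ) 1) :
    HasDerivAt (wt (D + 2)) (-(((D : ℝ) + 2) * (u * wt D u))) u := by
  have hpos : 0 < 1 - u ^ 2 := by nlinarith [hu.1, hu.2]
  have h1 : HasDerivAt (fun u : ℝ => 1 - u ^ 2) (-(2 * u)) u := by
    have := (hasDerivAt_pow 2 u).const_sub 1
    simpa using this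
  have hs : Real.sqrt (1 - u ^ 2) ≠ 0 := (Real.sqrt_pos.2 hpos).ne'
  have h3 := (h1.sqrt hpos.ne').pow (D + 2)
  refine h3.congr_deriv ?_
  unfold wt
  have e : D + 2 - 1 = D + 1 := by omega
  rw [e]
  push_cast
  have e4 : Real.sqrt (1 - u ^ 2) ^ (D + 1) =
    Real.sqrt (1 - u ^ 2) * Real.sqrt (1 - u ^ 2) ^ D := by
    rw [pow_add]; ring
  rw [e4]
  field_simp

/-- the coefficients of a cap -/
theorem cap_coeff (D j : ℕ) {t : ℝ} (ht : t ∈ Icc (-1 : ℝ) 1) :
    ∫ s in t..1, (PP (D + 3) (j + 1)).eval s * wt D s =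
      wt (D + 2) t * (PP (D + 5) j).eval t / ((D : ℝ) + 2) := by
  have hD : (0 : ℝ) < (D : ℝ) + 2 := by positivity
  have h := intervalIntegral.integral_eq_sub_of_hasDerivAt_of_le (a := t) (b := 1)
    (f := fun s => -(wt (D + 2) s * (PP (D + 5) j).eval s / ((D : ℝ) + 2)))
    (f' := fun s => (PP (D + 3) (j + 1)).eval s * wt D s) ht.2
    (((continuous_wt _).mul (Polynomial.continuous _)).div_const _).neg.continuousOn
    (by
      intro s hs
      have hs' : s ∈ Ioo (-1 : ℝ) 1 := ⟨lt_of_le_of_lt ht.1 hs.1, hs.2⟩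
      have h1 := hasDerivAt_wt34 D hs'
      have h2 := (PP (D + 5) j).hasDerivAt s
      refine ((h1.mul h2).div_const ((D : ℝ) + 2)).neg.congr_deriv ?_
      have h3 := PQ34 (d := D + 3) (by omega) s j
      have h4 := (PP_AB (d := D + 5) (by omega) j s).2
      have h5 := wt_add_two D (u := s) ⟨hs'.1.le, hs'.2.le⟩
      rw [h5]
      rw [show D + 3 + 2 = D + 5 by ring] at h3
      push_cast at h3 h4
      field_simp
      linear_combination (-(wt D s)) * h4 - (wt D s) * h3)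
    (((Polynomial.continuous _).mul (continuous_wt _)).intervalIntegrable _ _)
  rw [h]
  have h6 : wt (D + 2) 1 = 0 := by unfold wt; simp
  rw [h6]
  ring

/-- positivity and a lower bound for small degrees -/
private theorem ratio34 {d : ℕ} (hd : 3 ≤ d) {t : ℝ} (ht : 0 < t) (n : ℕ) :
    4 * (n : ℝ) ≤ d * t ^ 2 → 0 < (PP d n).eval t ∧ t / 2 * (PP d n).eval t ≤ (PP d (n + 1)).eval t := by
  have hd' : (3 : ℝ) ≤ d := by exact_mod_cast hd
  induction n with
  | zero =>
    intro _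
    rw [PP_zero, zero_add, PP_one, eval_one, eval_X]
    exact ⟨one_pos, by linarith⟩
  | succ n ih =>
    intro h
    push_cast at h
    obtain ⟨h1, h2⟩ := ih (by linarith)
    have hn : (0 : ℝ) ≤ n := Nat.cast_nonneg n
    have h3 : 0 < (PP d (n + 1)).eval t := lt_of_lt_of_le (by positivity) h2
    refine ⟨h3, ?_⟩
    have hr := PP_rec hd n t
    have hne : 0 < (n : ℝ) + d - 1 := by linarith
    have h4 : ((n : ℝ) + 1) * (PP d n).eval t ≤ (d * t / 2) * (PP d (n + 1)).eval t := by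
      have h5 : ((n : ℝ) + 1) * (t / 2) ≤ (t / 2) * (d * t ^ 2 / 4) := by nlinarith
      have h6 : ((n : ℝ) + 1) * (t / 2 * (PP d n).eval t) ≤ (d * t ^ 2 / 4) * (PP d (n + 1)).eval t := by
        calc ((n : ℝ) + 1) * (t / 2 * (PP d n).eval t) ≤ ((n : ℝ) + 1) * (PP d (n + 1)).eval t :=
              mul_le_mul_of_nonneg_left h2 (by positivity)
          _ ≤ (d * t ^ 2 / 4) * (PP d (n + 1)).eval t :=
              mul_le_mul_of_nonneg_right (by linarith) h3.le
      have h7 : t / 2 * (((n : ℝ) + 1) * (PP d n).eval t) ≤ t / 2 * ((d * t / 2) * (PP d (n + 1)).eval t) := by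
        calc t / 2 * (((n : ℝ) + 1) * (PP d n).eval t) = ((n : ℝ) + 1) * (t / 2 * (PP d n).eval t) := by ring
          _ ≤ (d * t ^ 2 / 4) * (PP d (n + 1)).eval t := h6
          _ = t / 2 * ((d * t / 2) * (PP d (n + 1)).eval t) := by ring
      exact le_of_mul_le_mul_left h7 (by positivity)
    have h8 : ((n : ℝ) + d - 1) * (t / 2 * (PP d (n + 1)).eval t) ≤ ((n : ℝ) + d - 1) * (PP d (n + 2)).eval t := by
      rw [hr]
      have h9 : 0 ≤ (t * (PP d (n + 1)).eval t) * (3 * n / 2 + 1 / 2) := by positivity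
      nlinarith
    exact le_of_mul_le_mul_left h8 hne

/-- lower bound for small degrees -/
theorem PP_ge {d : ℕ} (hd : 3 ≤ d) {t : ℝ} (ht : 0 < t) (n : ℕ) (hn : 4 * (n : ℝ) ≤ d * t ^ 2) :
    (t / 2) ^ n ≤ (PP d n).eval t := by
  induction n with
  | zero => simp [PP_zero]
  | succ n ih =>
    push_cast at hn
    have h1 := ih (by linarith)
    have h2 := (ratio34 hd ht n (by linarith)).2
    calc (t / 2) ^ (n + 1) = t / 2 * (t / 2) ^ n := by ring
      _ ≤ t / 2 * (PP d n).eval t := mul_le_mul_of_nonneg_left h1 (by positivity)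
      _ ≤ _ := h2

/-- decay: `2 M ≤ t ^ 2 D` and `2 M ≤ n` -/
theorem PP_decay {D : ℕ} (hD : 1 ≤ D) {t : ℝ} (ht : 0 < t) (ht1 : t ≤ 1) {M n : ℕ} (h1 : 2 * (M : ℝ) ≤ D * t ^ 2)
    (h2 : 2 * M ≤ n) : |(PP (D + 4) n).eval t| ≤ 2 * √(2 * (D : ℝ)) * t ^ (2 * M) := by
  have h3 := abs_PP_pow_le D (m := n) (s := 1) (M := M) (by omega) (t := t) ⟨by linarith, ht1⟩
  rw [pow_one] at h3
  refine h3.trans ?_
  rw [integral_den, show D + 3 - 3 = D by omega]
  have hD0 : (0 : ℝ) < D := by exact_mod_cast (by omega : 0 < D)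
  have h4 : ∀ u ∈ Icc (-1 : ℝ) 1, (1 - (1 - t ^ 2) * (1 - u ^ 2)) ^ M * wt D u ≤ t ^ (2 * M) := by
    intro u hu
    have hu2 : 0 ≤ 1 - u ^ 2 := by nlinarith [hu.1, hu.2]
    have hbase : 1 - (1 - t ^ 2) * (1 - u ^ 2) ≤ t ^ 2 * (1 + u ^ 2 / t ^ 2) := by
      have : t ^ 2 * (1 + u ^ 2 / t ^ 2) = t ^ 2 + u ^ 2 := by field_simp
      rw [this]
      nlinarith [sq_nonneg (t * u)]
    have hbase0 : 0 ≤ 1 - (1 - t ^ 2) * (1 - u ^ 2) := by nlinarith [sq_nonneg (t * u), sq_nonneg u, sq_nonneg t]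
    have h5 : (1 - (1 - t ^ 2) * (1 - u ^ 2)) ^ M ≤ t ^ (2 * M) * Real.exp (M * (u ^ 2 / t ^ 2)) := by
      calc (1 - (1 - t ^ 2) * (1 - u ^ 2)) ^ M ≤ (t ^ 2 * (1 + u ^ 2 / t ^ 2)) ^ M := pow_le_pow_left₀ hbase0 hbase M
        _ = t ^ (2 * M) * (1 + u ^ 2 / t ^ 2) ^ M := by rw [mul_pow, ← pow_mul]
        _ ≤ t ^ (2 * M) * (Real.exp (u ^ 2 / t ^ 2)) ^ M := by
          apply mul_le_mul_of_nonneg_left _ (by positivity)
          apply pow_le_pow_left₀ (by positivity)
          linarith [Real.add_one_le_exp (u ^ 2 / t ^ 2)]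
        _ = t ^ (2 * M) * Real.exp (M * (u ^ 2 / t ^ 2)) := by rw [← Real.exp_nat_mul]
    have h6 : wt D u ≤ Real.exp (-(D * u ^ 2 / 2)) := by
      unfold wt
      have h7 : √(1 - u ^ 2) ≤ Real.exp (-(u ^ 2) / 2) := by
        apply Real.sqrt_le_iff.2 ⟨(Real.exp_pos _).le, ?_⟩
        rw [← Real.exp_nat_mul]
        have h8 := Real.add_one_le_exp (-(u ^ 2))
        have h9 : ((2 : ℕ) : ℝ) * (-(u ^ 2) / 2) = -(u ^ 2) := by push_cast; ring
        rw [h9]
        linarith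
      calc √(1 - u ^ 2) ^ D ≤ (Real.exp (-(u ^ 2) / 2)) ^ D := pow_le_pow_left₀ (Real.sqrt_nonneg _) h7 D
        _ = Real.exp (-(D * u ^ 2 / 2)) := by
          rw [← Real.exp_nat_mul]
          congr 1
          ring
    calc (1 - (1 - t ^ 2) * (1 - u ^ 2)) ^ M * wt D u ≤
          (t ^ (2 * M) * Real.exp (M * (u ^ 2 / t ^ 2))) * Real.exp (-(D * u ^ 2 / 2)) :=
          mul_le_mul h5 h6 (wt_nonneg _ _) (by positivity)
      _ = t ^ (2 * M) * Real.exp (M * (u ^ 2 / t ^ 2) + -(D * u ^ 2 / 2)) := by rw [Real.exp_add]; ring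
      _ ≤ t ^ (2 * M) * 1 := by
        apply mul_le_mul_of_nonneg_left _ (by positivity)
        rw [Real.exp_le_one_iff]
        have h10 : (M : ℝ) * (u ^ 2 / t ^ 2) ≤ D * u ^ 2 / 2 := by
          rw [mul_div_assoc', div_le_iff₀ (by positivity)]
          nlinarith [mul_le_mul_of_nonneg_right h1 (sq_nonneg u)]
        linarith
      _ = t ^ (2 * M) := mul_one _
  have h5 : ∫ u in (-1 : ℝ)..1, (1 - (1 - t ^ 2) * (1 - u ^ 2)) ^ M * wt D u ≤ 2 * t ^ (2 * M) := by
    have h6 : ∫ u in (-1 : ℝ)..1, (1 - (1 - t ^ 2) * (1 - u ^ 2)) ^ M * wt D u ≤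
        ∫ _u in (-1 : ℝ)..1, t ^ (2 * M) := by
      apply intervalIntegral.integral_mono_on (by norm_num)
      · apply Continuous.intervalIntegrable
        have := continuous_wt D
        fun_prop
      · exact intervalIntegrable_const
      · exact h4
    refine h6.trans (le_of_eq ?_)
    rw [intervalIntegral.integral_const, smul_eq_mul]
    ring
  have h7 := Pool.Agent.Helper47.LB.cst_le (d := D + 3) (by omega)
  rw [show D + 3 - 3 = D by omega] at h7
  calc cst (D + 3) * ∫ u in (-1 : ℝ)..1, (1 - (1 - t ^ 2) * (1 - u ^ 2)) ^ M * wt D u ≤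
        √(2 * (D : ℝ)) * (2 * t ^ (2 * M)) :=
        mul_le_mul h7 h5 (intervalIntegral.integral_nonneg (by norm_num) (fun u hu => by
          have hu2 : 0 ≤ 1 - u ^ 2 := by nlinarith [hu.1, hu.2]
          have hb : 0 ≤ 1 - (1 - t ^ 2) * (1 - u ^ 2) := by nlinarith [sq_nonneg (t * u), sq_nonneg u, sq_nonneg t]
          exact mul_nonneg (pow_nonneg hb _) (wt_nonneg _ _))) (Real.sqrt_nonneg _)
    _ = 2 * √(2 * (D : ℝ)) * t ^ (2 * M) := by ring

/-- the coefficients of the cap of angle `60°`: `n ≤ D / 4` or anything beyond -/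
theorem cap_half (D j : ℕ) {M : ℕ} (h1 : 8 * M ≤ D + 1) (h2 : 2 * M ≤ j) :
    |∫ s in (1 / 2 : ℝ)..1, (PP (D + 3) (j + 1)).eval s * wt D s| ≤
      2 * √(2 * ((D : ℝ) + 1)) * √(3 / 4) ^ (D + 2) * (1 / 4) ^ M / ((D : ℝ) + 2) := by
  rw [cap_coeff D j (t := 1 / 2) ⟨by norm_num, by norm_num⟩, abs_div, abs_mul, abs_of_nonneg (wt_nonneg _ _),
    abs_of_pos (show (0 : ℝ) < (D : ℝ) + 2 by positivity)]
  apply div_le_div_of_nonneg_right _ (by positivity)
  have h3 := PP_decay (D := D + 1) (by omega) (t := 1 / 2) (by norm_num) (by norm_num) (M := M) (n := j) (by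
    push_cast
    have : (8 * M : ℝ) ≤ D + 1 := by exact_mod_cast h1
    nlinarith) h2
  have h4 : wt (D + 2) (1 / 2) = √(3 / 4) ^ (D + 2) := by
    unfold wt
    norm_num
  rw [h4]
  have h5 : ((1 : ℝ) / 2) ^ (2 * M) = (1 / 4) ^ M := by
    rw [pow_mul]
    norm_num
  rw [h5] at h3
  push_cast at h3
  calc √(3 / 4) ^ (D + 2) * |(PP (D + 5) j).eval (1 / 2)| ≤
      √(3 / 4) ^ (D + 2) * (2 * √(2 * ((D : ℝ) + 1)) * (1 / 4) ^ M) :=
        mul_le_mul_of_nonneg_left h3 (by positivity)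
    _ = _ := by ring

end Pool.Agent.Helper34.KU
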