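import Pool.Agent.Helper34.KU.Cap

/-!
The density `(1_{t ≤ 1/2} + r 1_{a < t ≤ 1/2}) / Z` and its Gegenbauer coefficients.
-/

set_option autoImplicit false

open MeasureTheory Set Polynomial Filter
open scoped Topology

namespace Pool.Agent.Helper34.KU

open Pool.Agent.Helper47.KP
open Pool.Agent.Helper86.LP (abs_PP_pow_le integrable_den wt_add_two den_prob)
open Pool.Agent.Helper47.LB (VV cst_le tail_le)

/-- indicator of `(-∞, b]` -/
noncomputable def ind (b : ℝ) (t : ℝ) : ℝ := if t ≤ b then 1 else 0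

private theorem measurable_ind34 (b : ℝ) : Measurable (ind b) :=
  Measurable.ite measurableSet_Iic measurable_const measurable_const

private theorem int_ind34 {b : ℝ} (hb : b ∈ Icc (-1 : ℝ) 1) {F : ℝ → ℝ} (hF : Continuous F) :
    IntervalIntegrable (fun t => ind b t * F t) volume (-1) 1 ∧
      ∫ t in (-1 : ℝ)..1, ind b t * F t = ∫ t in (-1 : ℝ)..b, F t := by
  have e : (fun t => ind b t * F t) = Set.indicator {x | x ≤ b} F := by
    funext t
    by_cases h : t ≤ b
    · rw [ind, if_pos h, one_mul, Set.indicator_of_mem (show t ∈ {x | x ≤ b} from h)]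
    · rw [ind, if_neg h, zero_mul, Set.indicator_of_notMem (show t ∉ {x | x ≤ b} from h)]
  rw [e]
  refine ⟨?_, intervalIntegral.integral_indicator hb⟩
  have h := hF.intervalIntegrable (μ := volume) (-1) 1
  exact ⟨h.1.indicator measurableSet_Iic, h.2.indicator measurableSet_Iic⟩

/-- tails of the law of the inner product -/
noncomputable def TT (D : ℕ) (b : ℝ) : ℝ := cst (D + 3) * ∫ t in b..1, wt D t

private theorem TT_nonneg34 (D : ℕ) {b : ℝ} (hb : b ≤ 1) : 0 ≤ TT D b :=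
  mul_nonneg (cst_pos _).le (intervalIntegral.integral_nonneg hb fun _ _ => wt_nonneg _ _)

private theorem int_low34 (D : ℕ) (b : ℝ) : cst (D + 3) * ∫ t in (-1 : ℝ)..b, wt D t = 1 - TT D b := by
  have h := intervalIntegral.integral_add_adjacent_intervals
    ((continuous_wt D).intervalIntegrable (μ := volume) (-1) b)
    ((continuous_wt D).intervalIntegrable (μ := volume) b 1)
  have h2 : cst (D + 3) * ∫ t in (-1 : ℝ)..1, wt D t = 1 := by
    unfold cst
    rw [show D + 3 - 3 = D by omega]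
    exact inv_mul_cancel₀ (integral_wt_pos D).ne'
  unfold TT
  rw [← h, mul_add] at h2
  linarith

/-- the normalising constant -/
noncomputable def ZZ (D : ℕ) (a r : ℝ) : ℝ := 1 - (1 + r) * TT D (1 / 2) + r * TT D a

/-- the density -/
noncomputable def gK (D : ℕ) (a r : ℝ) (t : ℝ) : ℝ := ((1 + r) * ind (1 / 2) t - r * ind a t) / ZZ D a r

private theorem TT_half34 {D : ℕ} (hD : 1 ≤ D) : TT D (1 / 2) ≤ VV (D + 3) / 2 := by
  have h1 := cst_le (d := D + 3) (by omega)
  have h2 := tail_le D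
  unfold TT VV
  rw [show D + 3 - 3 = D by omega] at h1 ⊢
  calc cst (D + 3) * ∫ t in (1 / 2 : ℝ)..1, wt D t ≤ √(2 * (D : ℝ)) * (1 / 2 * √(3 / 4) ^ D) :=
        mul_le_mul h1 h2 (intervalIntegral.integral_nonneg (by norm_num) fun _ _ => wt_nonneg _ _)
          (Real.sqrt_nonneg _)
    _ = _ := by ring

private theorem ZZ_ge34 {D : ℕ} (hD : 1 ≤ D) {a r : ℝ} (ha : a ≤ 1) (hr0 : 0 ≤ r) (hr1 : r ≤ 1) :
    1 - VV (D + 3) ≤ ZZ D a r := by
  have h1 := TT_half34 hD
  have h2 := TT_nonneg34 D ha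
  have h3 := TT_nonneg34 D (b := 1 / 2) (by norm_num)
  unfold ZZ
  nlinarith [mul_nonneg hr0 h2]

private theorem abs_le_one34 (D n : ℕ) {t : ℝ} (ht : t ∈ Icc (-1 : ℝ) 1) : |(PP (D + 4) n).eval t| ≤ 1 := by
  have h := abs_PP_pow_le D (m := n) (s := 1) (M := 0) (by omega) ht
  have hp : IsProbabilityMeasure (den (D + 3)) := den_prob (by omega)
  simpa using h

/-- the density exists: properties from a bound for the coefficients of the two caps -/
theorem dens_props {D : ℕ} (hD : 1 ≤ D) {a r ε : ℝ} (ha0 : 0 < a) (ha : a < 1 / 2) (hr0 : 0 ≤ r) (hr1 : r ≤ 1)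
    (hV : VV (D + 3) ≤ 1 / 4) (hε : 0 ≤ ε)
    (hB : ∀ j : ℕ, -(ε / 2) ≤ r * (wt (D + 2) a * (PP (D + 5) j).eval a) -
      (1 + r) * (√(3 / 4) ^ (D + 2) * (PP (D + 5) j).eval (1 / 2))) :
    ∃ g : ℝ → ℝ, Measurable g ∧ (∀ t, 0 ≤ g t) ∧ (∀ t, g t ≤ 1 + (r + 3 * VV (D + 3))) ∧
      (∀ t, 1 / 2 < t → g t = 0) ∧ ∫ t, g t ∂(den (D + 3)) = 1 ∧
      ∀ j, 1 ≤ j → -ε ≤ ∫ t, g t * (PP (D + 3) j).eval t ∂(den (D + 3)) := by
  have hZ := ZZ_ge34 hD (show a ≤ 1 by linarith) hr0 hr1
  have hV0 : 0 ≤ VV (D + 3) := (Pool.Agent.Helper47.LB.VV_pos (by omega)).le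
  set V := VV (D + 3) with hVdef
  set Z := ZZ D a r with hZdef
  have hZ0 : 0 < Z := by linarith
  have hnum : ∀ t, 0 ≤ (1 + r) * ind (1 / 2) t - r * ind a t ∧
      (1 + r) * ind (1 / 2) t - r * ind a t ≤ 1 + r := by
    intro t
    unfold ind
    by_cases h1 : t ≤ a
    · rw [if_pos h1, if_pos (by linarith)]
      constructor <;> linarith
    · rw [if_neg h1]
      split_ifs <;> constructor <;> linarith
  -- integrals
  have hint : ∀ f : ℝ → ℝ, Continuous f → ∫ t, gK D a r t * f t ∂(den (D + 3)) =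
      (cst (D + 3) * ((1 + r) * (∫ t in (-1 : ℝ)..(1 / 2), f t * wt D t) -
        r * ∫ t in (-1 : ℝ)..a, f t * wt D t)) / Z := by
    intro f hf
    have hF : Continuous (fun t => f t * wt D t) := hf.mul (continuous_wt D)
    obtain ⟨i1, j1⟩ := int_ind34 (b := 1 / 2) ⟨by norm_num, by norm_num⟩ hF
    obtain ⟨i2, j2⟩ := int_ind34 (b := a) ⟨by linarith, by linarith⟩ hF
    rw [integral_den, show D + 3 - 3 = D by omega]
    have e1 : ∀ t, gK D a r t * f t * wt D t =
        ((1 + r) * (ind (1 / 2) t * (f t * wt D t)) - r * (ind a t * (f t * wt D t))) / Z := by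
      intro t
      unfold gK
      rw [← hZdef]
      ring
    simp only [e1]
    rw [intervalIntegral.integral_div, intervalIntegral.integral_sub (i1.const_mul _) (i2.const_mul _),
      intervalIntegral.integral_const_mul, intervalIntegral.integral_const_mul, j1, j2]
    ring
  refine ⟨gK D a r, ?_, ?_, ?_, ?_, ?_, ?_⟩
  · exact (((measurable_ind34 _).const_mul _).sub ((measurable_ind34 _).const_mul _)).div_const _
  · intro t
    exact div_nonneg (hnum t).1 hZ0.le
  · intro t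
    unfold gK
    rw [← hZdef, div_le_iff₀ hZ0]
    have h1 := (hnum t).2
    have h2 : (1 + (r + 3 * V)) * (1 - V) ≤ (1 + (r + 3 * V)) * Z :=
      mul_le_mul_of_nonneg_left hZ (by linarith)
    nlinarith [mul_nonneg hV0 (show 0 ≤ 1 - r by linarith), mul_nonneg hV0 (show 0 ≤ 1 / 4 - V by linarith)]
  · intro t ht
    unfold gK ind
    rw [if_neg (by linarith), if_neg (by linarith)]
    simp
  · have h := hint (fun _ => 1) continuous_const
    simp only [mul_one, one_mul] at h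
    rw [h]
    have h1 := int_low34 D (1 / 2)
    have h2 := int_low34 D a
    have h3 : cst (D + 3) * ((1 + r) * (∫ t in (-1 : ℝ)..(1 / 2), wt D t) - r * ∫ t in (-1 : ℝ)..a, wt D t) = Z := by
      rw [hZdef]
      unfold ZZ
      linear_combination (1 + r) * h1 - r * h2
    rw [h3, div_self hZ0.ne']
  · intro j hj
    obtain ⟨j, rfl⟩ : ∃ i, j = i + 1 := ⟨j - 1, by omega⟩
    rw [hint _ (Polynomial.continuous _)]
    have hc : Continuous (fun t => (PP (D + 3) (j + 1)).eval t * wt D t) :=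
      (Polynomial.continuous (PP (D + 3) (j + 1))).mul (continuous_wt D)
    have hlow : ∀ b ∈ Icc (-1 : ℝ) 1, ∫ t in (-1 : ℝ)..b, (PP (D + 3) (j + 1)).eval t * wt D t =
        -(wt (D + 2) b * (PP (D + 5) j).eval b / ((D : ℝ) + 2)) := by
      intro b hb
      have h1 := intervalIntegral.integral_add_adjacent_intervals
        (hc.intervalIntegrable (μ := volume) (-1) b) (hc.intervalIntegrable (μ := volume) b 1)
      have h2 := cap_coeff D j (t := -1) ⟨le_rfl, by norm_num⟩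
      have h3 := cap_coeff D j hb
      have h4 : wt (D + 2) (-1) = 0 := by unfold wt; simp
      rw [h4, zero_mul, zero_div] at h2
      rw [h2, h3] at h1
      linarith
    rw [hlow _ ⟨by norm_num, by norm_num⟩, hlow _ ⟨by linarith, by linarith⟩]
    have h5 : wt (D + 2) (1 / 2) = √(3 / 4) ^ (D + 2) := by
      unfold wt
      norm_num
    rw [h5]
    have hb := hB j
    set X := r * (wt (D + 2) a * (PP (D + 5) j).eval a) -
      (1 + r) * (√(3 / 4) ^ (D + 2) * (PP (D + 5) j).eval (1 / 2)) with hX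
    have e2 : cst (D + 3) * ((1 + r) * -(√(3 / 4) ^ (D + 2) * (PP (D + 5) j).eval (1 / 2) / ((D : ℝ) + 2)) -
        r * -(wt (D + 2) a * (PP (D + 5) j).eval a / ((D : ℝ) + 2))) / Z =
        (cst (D + 3) / ((D : ℝ) + 2) / Z) * X := by
      rw [hX]
      ring
    rw [e2]
    have hD0 : (0 : ℝ) < (D : ℝ) + 2 := by positivity
    have hc1 : cst (D + 3) / ((D : ℝ) + 2) ≤ 1 := by
      rw [div_le_one hD0]
      have h6 := cst_le (d := D + 3) (by omega)
      rw [show D + 3 - 3 = D by omega] at h6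
      refine h6.trans ?_
      apply Real.sqrt_le_iff.2 ⟨hD0.le, ?_⟩
      nlinarith [sq_nonneg (D : ℝ), (Nat.cast_nonneg D : (0 : ℝ) ≤ D)]
    have hc0 : 0 ≤ cst (D + 3) / ((D : ℝ) + 2) / Z :=
      div_nonneg (div_nonneg (cst_pos _).le hD0.le) hZ0.le
    have hc2 : cst (D + 3) / ((D : ℝ) + 2) / Z ≤ 2 := by
      rw [div_le_iff₀ hZ0]
      linarith
    nlinarith [mul_le_mul_of_nonneg_left hb hc0, mul_le_mul_of_nonneg_right hc2 hε]

/-- the bound for the coefficients of the two caps -/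
theorem caps_bound {D : ℕ} (hD : 1 ≤ D) {a r : ℝ} (ha0 : 0 < a) (ha : a < 1 / 2) (hr0 : 0 ≤ r) (hr1 : r ≤ 1)
    {m₀ M M' : ℕ} (h1 : 4 * (m₀ : ℝ) ≤ (D + 5) * a ^ 2) (h2 : 2 * √(3 / 4) ^ (D + 2) ≤ r * (wt (D + 2) a * (a / 2) ^ m₀))
    (h3 : 2 * M ≤ m₀ + 1) (h4 : 8 * M ≤ D + 1) (h5 : 8 * (M' : ℝ) ≤ (D + 5) * a ^ 2) (j : ℕ) :
    -(2 * √(2 * ((D : ℝ) + 1)) * (2 * √(3 / 4) ^ (D + 2) * (1 / 4) ^ M + r * wt (D + 2) a * a ^ (2 * M'))) ≤
      r * (wt (D + 2) a * (PP (D + 5) j).eval a) -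
      (1 + r) * (√(3 / 4) ^ (D + 2) * (PP (D + 5) j).eval (1 / 2)) := by
  have hw : 0 ≤ wt (D + 2) a := wt_nonneg _ _
  have hs : 0 ≤ √(3 / 4 : ℝ) ^ (D + 2) := by positivity
  have hq := abs_le_one34 (D + 1) j (t := 1 / 2) ⟨by norm_num, by norm_num⟩
  rw [show D + 1 + 4 = D + 5 by ring] at hq
  have hD' : (1 : ℝ) ≤ D := by exact_mod_cast hD
  have hneg : 0 ≤ 2 * √(2 * ((D : ℝ) + 1)) * (2 * √(3 / 4) ^ (D + 2) * (1 / 4) ^ M + r * wt (D + 2) a * a ^ (2 * M')) := by
    positivity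
  -- the cap of angle 60
  have hcap : j ≤ m₀ ∨ |(PP (D + 5) j).eval (1 / 2)| ≤ 2 * √(2 * ((D : ℝ) + 1)) * (1 / 4) ^ M := by
    rcases Nat.lt_or_ge m₀ j with h | h
    · right
      have h6 := PP_decay (D := D + 1) (by omega) (t := 1 / 2) (by norm_num) (by norm_num) (M := M) (n := j) (by
        push_cast
        have : (8 * M : ℝ) ≤ D + 1 := by exact_mod_cast h4
        nlinarith) (by omega)
      rw [show D + 1 + 4 = D + 5 by ring, pow_mul] at h6
      push_cast at h6
      refine h6.trans (le_of_eq ?_)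
      norm_num
    · exact Or.inl h
  by_cases hj : j ≤ m₀
  · -- small degrees
    have h6 := PP_ge (d := D + 5) (by omega) ha0 j (by
      push_cast
      have : (j : ℝ) ≤ m₀ := by exact_mod_cast hj
      linarith)
    have h7 : (a / 2) ^ m₀ ≤ (a / 2) ^ j := pow_le_pow_of_le_one (by linarith) (by linarith) hj
    have h8 : r * (wt (D + 2) a * (a / 2) ^ m₀) ≤ r * (wt (D + 2) a * (PP (D + 5) j).eval a) :=
      mul_le_mul_of_nonneg_left (mul_le_mul_of_nonneg_left (h7.trans h6) hw) hr0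
    have h9 : (1 + r) * (√(3 / 4) ^ (D + 2) * (PP (D + 5) j).eval (1 / 2)) ≤ 2 * √(3 / 4) ^ (D + 2) := by
      have h10 : √(3 / 4) ^ (D + 2) * (PP (D + 5) j).eval (1 / 2) ≤ √(3 / 4) ^ (D + 2) :=
        mul_le_of_le_one_right hs ((le_abs_self _).trans hq)
      nlinarith [mul_le_mul_of_nonneg_left h10 (show 0 ≤ 1 + r by linarith)]
    linarith
  · have hcap' := hcap.resolve_left hj
    have h9 : (1 + r) * (√(3 / 4) ^ (D + 2) * (PP (D + 5) j).eval (1 / 2)) ≤
        2 * (√(3 / 4) ^ (D + 2) * (2 * √(2 * ((D : ℝ) + 1)) * (1 / 4) ^ M)) := by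
      have h10 : √(3 / 4) ^ (D + 2) * (PP (D + 5) j).eval (1 / 2) ≤
          √(3 / 4) ^ (D + 2) * (2 * √(2 * ((D : ℝ) + 1)) * (1 / 4) ^ M) :=
        mul_le_mul_of_nonneg_left ((le_abs_self _).trans hcap') hs
      have h11 : 0 ≤ √(3 / 4) ^ (D + 2) * (2 * √(2 * ((D : ℝ) + 1)) * (1 / 4) ^ M) := by positivity
      nlinarith [mul_le_mul_of_nonneg_left h10 (show 0 ≤ 1 + r by linarith)]
    have h12 : -(r * wt (D + 2) a * (2 * √(2 * ((D : ℝ) + 1)) * a ^ (2 * M'))) ≤
        r * (wt (D + 2) a * (PP (D + 5) j).eval a) := by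
      by_cases hj2 : 4 * (j : ℝ) ≤ (D + 5) * a ^ 2
      · have h6 := PP_ge (d := D + 5) (by omega) ha0 j (by push_cast; linarith)
        have h13 : 0 ≤ (PP (D + 5) j).eval a := le_trans (by positivity) h6
        have h14 : 0 ≤ r * (wt (D + 2) a * (PP (D + 5) j).eval a) := mul_nonneg hr0 (mul_nonneg hw h13)
        have h15 : 0 ≤ r * wt (D + 2) a * (2 * √(2 * ((D : ℝ) + 1)) * a ^ (2 * M')) := by positivity
        linarith
      · rw [not_le] at hj2
        have h6 := PP_decay (D := D + 1) (by omega) (t := a) ha0 (by linarith) (M := M') (n := j) (by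
          push_cast
          nlinarith [sq_nonneg a]) (by
          have : (2 * (M' : ℝ)) < j := by linarith
          have h16 : 2 * M' < j := by exact_mod_cast this
          exact h16.le)
        rw [show D + 1 + 4 = D + 5 by ring] at h6
        push_cast at h6
        have h13 := (abs_le.1 h6).1
        have h14 := mul_le_mul_of_nonneg_left h13 (mul_nonneg hr0 hw)
        linarith
    linarith

end Pool.Agent.Helper34.KU
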