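import Pool.Agent.Helper34.KU.Dens
import Pool.Agent.Helper47.KP.Bound

/-!
The `k`-point bounds with `k ≤ 2^(η d)`, `η < s₀ = log₂ (2 / √3)`, are at least
`2^((s₀ + (s₀ - η)² / 10) d)`.
-/

set_option autoImplicit false

open MeasureTheory Set Polynomial Filter
open scoped Topology

namespace Pool.Agent.Helper34.KU

open Pool.Agent.Helper47.KP
open Pool.Agent.Helper47.LB (VV VV_pos)

/-- the exponent of Wyner's bound -/
noncomputable def s0 : ℝ := Real.logb 2 (2 / √3)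

private theorem two_rpow_s034 : (2 : ℝ) ^ s0 = 2 / √3 :=
  Real.rpow_logb (by norm_num) (by norm_num) (by positivity)

private theorem s0_pos34 : 0 < s0 := by
  apply Real.logb_pos (by norm_num)
  rw [lt_div_iff₀ (by positivity), one_mul]
  rw [Real.sqrt_lt' (by norm_num)]
  norm_num

private theorem s0_lt34 : s0 < 1 / 4 := by
  have h1 : (2 : ℝ) ^ (4 * s0) < 2 ^ (1 : ℝ) := by
    rw [mul_comm, Real.rpow_mul (by norm_num), two_rpow_s034, Real.rpow_one]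
    have h2 : ((2 : ℝ) / √3) ^ (4 : ℝ) = 16 / 9 := by
      have h3 : ((2 : ℝ) / √3) ^ (4 : ℝ) = (2 / √3) ^ (4 : ℕ) := by
        rw [← Real.rpow_natCast]
        norm_num
      rw [h3, div_pow]
      have h4 : √(3 : ℝ) ^ 4 = 9 := by
        have h5 : √(3 : ℝ) ^ 2 = 3 := Real.sq_sqrt (by norm_num)
        calc √(3 : ℝ) ^ 4 = (√(3 : ℝ) ^ 2) ^ 2 := by ring
          _ = 9 := by rw [h5]; norm_num
      rw [h4]
      norm_num
    rw [h2]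
    norm_num
  have h2 := (Real.rpow_lt_rpow_left_iff (by norm_num : (1 : ℝ) < 2)).1 h1
  linarith

private theorem sqrt_34 : √(3 / 4 : ℝ) = 2 ^ (-s0) := by
  rw [Real.rpow_neg (by norm_num), two_rpow_s034, inv_div]
  rw [Real.sqrt_div (by norm_num)]
  congr 1
  rw [show (4 : ℝ) = 2 ^ 2 by norm_num, Real.sqrt_sq (by norm_num)]

private theorem ev34 (C : ℝ) {c : ℝ} (hc : 0 < c) {x : ℝ} (hx : 0 < x) :
    ∀ᶠ d : ℕ in atTop, C * d * (2 : ℝ) ^ (-(c * d)) ≤ x := by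
  have h1 : (0 : ℝ) ≤ 2 ^ (-c) := by positivity
  have h2 : (2 : ℝ) ^ (-c) < 1 := Real.rpow_lt_one_of_one_lt_of_neg (by norm_num) (by linarith)
  have h3 := (tendsto_self_mul_const_pow_of_lt_one h1 h2).const_mul C
  rw [mul_zero] at h3
  filter_upwards [h3.eventually (ge_mem_nhds hx)] with d hd
  have e : (2 : ℝ) ^ (-(c * d)) = (2 ^ (-c)) ^ d := by
    rw [← Real.rpow_natCast, ← Real.rpow_mul (by norm_num)]
    congr 1
    ring
  rw [e, mul_assoc]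
  exact hd

private theorem pow34 (c : ℝ) (n : ℕ) : ((2 : ℝ) ^ c) ^ n = 2 ^ (c * n) := by
  rw [← Real.rpow_natCast, ← Real.rpow_mul (by norm_num)]

/-- the exponents -/
private theorem numbers34 {a : ℝ} (ha0 : 0 < a) (ha4 : a < 1 / 4) : ∃ L G : ℝ, 2 ≤ L ∧ a = 2 ^ (-L) ∧
    √(1 - a ^ 2) = 2 ^ (-G) ∧ 0 ≤ G ∧ G + 3 * a ^ 2 * L / 16 ≤ 3 / 4 * a := by
  have hln : 0 < Real.log 2 := Real.log_pos (by norm_num)
  have hln2 : 0.6931471803 < Real.log 2 := Real.log_two_gt_d9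
  have ha16 : a ^ 2 ≤ 1 / 16 := by nlinarith
  set L : ℝ := -Real.logb 2 a with hL
  have hLa : a = 2 ^ (-L) := by
    rw [hL, neg_neg, Real.rpow_logb (by norm_num) (by norm_num) ha0]
  have hL2 : 2 ≤ L := by
    have h1 : Real.logb 2 a ≤ Real.logb 2 (1 / 4) :=
      Real.logb_le_logb_of_le (by norm_num) ha0 ha4.le
    have h2 : Real.logb 2 (1 / 4) = -2 := by
      rw [show (1 / 4 : ℝ) = 2 ^ (-2 : ℝ) by
        rw [Real.rpow_neg (by norm_num)]; norm_num]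
      exact Real.logb_rpow (by norm_num) (by norm_num)
    rw [hL]
    linarith
  have hLle : a * L ≤ 3 / 2 := by
    have h1 : Real.log a⁻¹ ≤ a⁻¹ - 1 := Real.log_le_sub_one_of_pos (by positivity)
    rw [Real.log_inv] at h1
    have h2 : L * Real.log 2 = -Real.log a := by
      rw [hL, Real.logb]
      field_simp
    have h3 : a * (L * Real.log 2) ≤ 1 := by
      rw [h2]
      have h4 : a * (-Real.log a) ≤ a * (a⁻¹ - 1) := mul_le_mul_of_nonneg_left h1 ha0.le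
      have h5 : a * (a⁻¹ - 1) = 1 - a := by field_simp
      linarith
    by_contra hc
    rw [not_le] at hc
    have h6 : 3 / 2 * Real.log 2 < a * L * Real.log 2 := mul_lt_mul_of_pos_right hc hln
    have h7 : a * L * Real.log 2 = a * (L * Real.log 2) := by ring
    linarith
  have ha2 : 0 < 1 - a ^ 2 := by linarith
  set G : ℝ := -Real.logb 2 (√(1 - a ^ 2)) with hG
  have hGa : √(1 - a ^ 2) = 2 ^ (-G) := by
    rw [hG, neg_neg, Real.rpow_logb (by norm_num) (by norm_num) (Real.sqrt_pos.2 ha2)]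
  have hG0 : 0 ≤ G := by
    rw [hG, neg_nonneg]
    apply Real.logb_nonpos (by norm_num) (Real.sqrt_nonneg _)
    apply Real.sqrt_le_one.2
    linarith [sq_nonneg a]
  have hG1 : G ≤ a ^ 2 := by
    have h1 : G * Real.log 2 = -(1 / 2 * Real.log (1 - a ^ 2)) := by
      rw [hG, Real.logb, Real.log_sqrt ha2.le]
      field_simp
    have h2 : 1 - (1 - a ^ 2)⁻¹ ≤ Real.log (1 - a ^ 2) := Real.one_sub_inv_le_log_of_pos ha2
    have h3 : (1 - a ^ 2)⁻¹ ≤ 1 + 4 / 3 * a ^ 2 := by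
      rw [inv_le_iff_one_le_mul₀ ha2]
      nlinarith [mul_nonneg (sq_nonneg a) (show 0 ≤ 1 / 16 - a ^ 2 by linarith)]
    have h4 : G * Real.log 2 ≤ 2 / 3 * a ^ 2 := by linarith
    by_contra hc
    rw [not_le] at hc
    have h6 : a ^ 2 * Real.log 2 < G * Real.log 2 := mul_lt_mul_of_pos_right hc hln
    have h7 : a ^ 2 * 0.6931471803 ≤ a ^ 2 * Real.log 2 := mul_le_mul_of_nonneg_left hln2.le (sq_nonneg a)
    have h8 : 0 < a ^ 2 := by positivity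
    linarith
  refine ⟨L, G, hL2, hLa, hGa, hG0, ?_⟩
  have h1 : 3 * a ^ 2 * L / 16 = 3 / 16 * (a * (a * L)) := by ring
  have h2 : a * (a * L) ≤ a * (3 / 2) := mul_le_mul_of_nonneg_left hLle ha0.le
  have h3 : a ^ 2 ≤ a * (1 / 4) := by
    rw [sq]
    exact mul_le_mul_of_nonneg_left ha4.le ha0.le
  linarith

/-- the first small term -/
private theorem term1_34 {D M : ℕ} (hD : 1 ≤ D) {a : ℝ} (hM : a ^ 2 * ((D : ℝ) + 3) / 9 - 2 ≤ 2 * (M : ℝ)) :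
    16 * (√(2 * ((D : ℝ) + 1)) * (√(3 / 4) ^ (D + 2) * (1 / 4) ^ M)) ≤
      256 * ((D : ℝ) + 3) * 2 ^ (-(a ^ 2 / 90 * ((D : ℝ) + 3))) * 2 ^ (-((s0 + a ^ 2 / 10) * ((D : ℝ) + 3))) := by
  have hD' : (1 : ℝ) ≤ D := by exact_mod_cast hD
  have hs1 := s0_lt34
  have hsq : √(2 * ((D : ℝ) + 1)) ≤ 2 * ((D : ℝ) + 3) := by
    apply Real.sqrt_le_iff.2 ⟨by linarith, ?_⟩
    nlinarith
  set dd : ℝ := (D : ℝ) + 3 with hdd
  have hp34 : √(3 / 4 : ℝ) ^ (D + 2) = 2 ^ (-(s0 * (dd - 1))) := by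
    rw [sqrt_34, pow34]
    congr 1
    push_cast
    rw [hdd]
    ring
  have h1 : ((1 : ℝ) / 4) ^ M ≤ 2 ^ (-(a ^ 2 * dd / 9 - 2)) := by
    have h2 : ((1 : ℝ) / 4) ^ M = 2 ^ (-(2 * (M : ℝ))) := by
      rw [show (1 / 4 : ℝ) = 2 ^ (-2 : ℝ) by rw [Real.rpow_neg (by norm_num)]; norm_num, pow34]
      congr 1
      ring
    rw [h2]
    apply Real.rpow_le_rpow_of_exponent_le (by norm_num)
    linarith
  have h3 : √(3 / 4 : ℝ) ^ (D + 2) * (1 / 4) ^ M ≤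
      8 * (2 ^ (-(a ^ 2 / 90 * dd)) * 2 ^ (-((s0 + a ^ 2 / 10) * dd))) := by
    rw [hp34]
    calc (2 : ℝ) ^ (-(s0 * (dd - 1))) * (1 / 4) ^ M ≤
        2 ^ (-(s0 * (dd - 1))) * 2 ^ (-(a ^ 2 * dd / 9 - 2)) :=
          mul_le_mul_of_nonneg_left h1 (by positivity)
      _ = 2 ^ (-(s0 * (dd - 1)) + -(a ^ 2 * dd / 9 - 2)) := by rw [Real.rpow_add (by norm_num)]
      _ ≤ 2 ^ (3 + (-(a ^ 2 / 90 * dd) + -((s0 + a ^ 2 / 10) * dd))) := by
        apply Real.rpow_le_rpow_of_exponent_le (by norm_num)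
        linarith
      _ = 8 * (2 ^ (-(a ^ 2 / 90 * dd)) * 2 ^ (-((s0 + a ^ 2 / 10) * dd))) := by
        rw [Real.rpow_add (by norm_num), Real.rpow_add (by norm_num)]
        congr 1
        norm_num
  calc 16 * (√(2 * ((D : ℝ) + 1)) * (√(3 / 4) ^ (D + 2) * (1 / 4) ^ M)) ≤
      16 * (2 * dd * (8 * (2 ^ (-(a ^ 2 / 90 * dd)) * 2 ^ (-((s0 + a ^ 2 / 10) * dd))))) := by
        apply mul_le_mul_of_nonneg_left _ (by norm_num)
        exact mul_le_mul hsq h3 (by positivity) (by linarith)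
    _ = _ := by ring

/-- the second small term -/
private theorem term2_34 {D M' : ℕ} (hD : 1 ≤ D) {a L G : ℝ} (hL2 : 2 ≤ L) (hLa : a = 2 ^ (-L))
    (hGa : √(1 - a ^ 2) = 2 ^ (-G)) (hM' : a ^ 2 * (D : ℝ) / 4 - 2 ≤ 2 * (M' : ℝ)) :
    8 * (√(2 * ((D : ℝ) + 1)) * ((2 : ℝ) ^ (-((s0 - G - 3 * a ^ 2 * L / 16) * ((D : ℝ) + 3))) *
      wt (D + 2) a * a ^ (2 * M'))) ≤
      16 * 2 ^ (G + 3 * L * a ^ 2 / 4 + 2 * L) * ((D : ℝ) + 3) * 2 ^ (-(a ^ 2 / 90 * ((D : ℝ) + 3))) *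
        2 ^ (-((s0 + a ^ 2 / 10) * ((D : ℝ) + 3))) := by
  have hD' : (1 : ℝ) ≤ D := by exact_mod_cast hD
  have hsq : √(2 * ((D : ℝ) + 1)) ≤ 2 * ((D : ℝ) + 3) := by
    apply Real.sqrt_le_iff.2 ⟨by linarith, ?_⟩
    nlinarith
  set dd : ℝ := (D : ℝ) + 3 with hdd
  have hdd0 : 0 < dd := by rw [hdd]; linarith
  have hwt : wt (D + 2) a = 2 ^ (-(G * (dd - 1))) := by
    unfold wt
    rw [hGa, pow34]
    congr 1
    push_cast
    rw [hdd]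
    ring
  have h1 : a ^ (2 * M') ≤ 2 ^ (-(L * (a ^ 2 * (dd - 3) / 4 - 2))) := by
    have h2 : a ^ (2 * M') = 2 ^ (-(L * (2 * (M' : ℝ)))) := by
      nth_rewrite 1 [hLa]
      rw [pow34]
      congr 1
      push_cast
      ring
    rw [h2]
    apply Real.rpow_le_rpow_of_exponent_le (by norm_num)
    have h3 : a ^ 2 * (dd - 3) / 4 - 2 ≤ 2 * (M' : ℝ) := by
      rw [hdd]
      linarith
    have h4 := mul_le_mul_of_nonneg_left h3 (show 0 ≤ L by linarith)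
    linarith
  have h3 : (2 : ℝ) ^ (-((s0 - G - 3 * a ^ 2 * L / 16) * dd)) * wt (D + 2) a * a ^ (2 * M') ≤
      2 ^ (G + 3 * L * a ^ 2 / 4 + 2 * L) * (2 ^ (-(a ^ 2 / 90 * dd)) * 2 ^ (-((s0 + a ^ 2 / 10) * dd))) := by
    rw [hwt]
    calc (2 : ℝ) ^ (-((s0 - G - 3 * a ^ 2 * L / 16) * dd)) * 2 ^ (-(G * (dd - 1))) * a ^ (2 * M') ≤
        2 ^ (-((s0 - G - 3 * a ^ 2 * L / 16) * dd)) * 2 ^ (-(G * (dd - 1))) *
          2 ^ (-(L * (a ^ 2 * (dd - 3) / 4 - 2))) :=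
          mul_le_mul_of_nonneg_left h1 (by positivity)
      _ = 2 ^ (-((s0 - G - 3 * a ^ 2 * L / 16) * dd) + -(G * (dd - 1)) + -(L * (a ^ 2 * (dd - 3) / 4 - 2))) := by
        rw [Real.rpow_add (by norm_num), Real.rpow_add (by norm_num)]
      _ ≤ 2 ^ ((G + 3 * L * a ^ 2 / 4 + 2 * L) + (-(a ^ 2 / 90 * dd) + -((s0 + a ^ 2 / 10) * dd))) := by
        apply Real.rpow_le_rpow_of_exponent_le (by norm_num)
        have h4 : 0 ≤ a ^ 2 * dd * (L - 2) := mul_nonneg (by positivity) (by linarith)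
        have h5 : -((s0 - G - 3 * a ^ 2 * L / 16) * dd) + -(G * (dd - 1)) + -(L * (a ^ 2 * (dd - 3) / 4 - 2)) =
            (G + 3 * L * a ^ 2 / 4 + 2 * L) - s0 * dd - a ^ 2 * dd * L / 16 := by
          ring
        rw [h5]
        have h6 : 0 ≤ a ^ 2 * dd := by positivity
        linarith
      _ = _ := by
        rw [Real.rpow_add (by norm_num) (G + 3 * L * a ^ 2 / 4 + 2 * L),
          Real.rpow_add (by norm_num) (-(a ^ 2 / 90 * dd))]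
  calc 8 * (√(2 * ((D : ℝ) + 1)) * ((2 : ℝ) ^ (-((s0 - G - 3 * a ^ 2 * L / 16) * dd)) * wt (D + 2) a * a ^ (2 * M'))) ≤
      8 * (2 * dd * (2 ^ (G + 3 * L * a ^ 2 / 4 + 2 * L) *
        (2 ^ (-(a ^ 2 / 90 * dd)) * 2 ^ (-((s0 + a ^ 2 / 10) * dd))))) := by
        apply mul_le_mul_of_nonneg_left _ (by norm_num)
        have ha0 : 0 ≤ a := by rw [hLa]; positivity
        exact mul_le_mul hsq h3 (mul_nonneg (mul_nonneg (by positivity) (wt_nonneg _ _)) (by positivity)) (by linarith)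
    _ = _ := by ring

/-- the comparison of the two caps for the small degrees -/
private theorem small34 {D m₀ : ℕ} (hD : 1 ≤ D) {a L G : ℝ} (hL2 : 2 ≤ L) (hLa : a = 2 ^ (-L))
    (hGa : √(1 - a ^ 2) = 2 ^ (-G)) (hG0 : 0 ≤ G) (h36 : 36 ≤ a ^ 2 * ((D : ℝ) + 3))
    (hm₀ : (m₀ : ℝ) ≤ a ^ 2 * ((D : ℝ) + 3) / 9) :
    2 * √(3 / 4) ^ (D + 2) ≤ (2 : ℝ) ^ (-((s0 - G - 3 * a ^ 2 * L / 16) * ((D : ℝ) + 3))) *
      (wt (D + 2) a * (a / 2) ^ m₀) := by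
  have hs1 := s0_lt34
  set dd : ℝ := (D : ℝ) + 3 with hdd
  have hp34 : √(3 / 4 : ℝ) ^ (D + 2) = 2 ^ (-(s0 * (dd - 1))) := by
    rw [sqrt_34, pow34]
    congr 1
    push_cast
    rw [hdd]
    ring
  have hwt : wt (D + 2) a = 2 ^ (-(G * (dd - 1))) := by
    unfold wt
    rw [hGa, pow34]
    congr 1
    push_cast
    rw [hdd]
    ring
  have h1 : (2 : ℝ) ^ (-((L + 1) * (a ^ 2 * dd / 9))) ≤ (a / 2) ^ m₀ := by
    have h2 : a / 2 = 2 ^ (-(L + 1)) := by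
      rw [neg_add, Real.rpow_add (by norm_num), ← hLa, Real.rpow_neg_one]
      ring
    rw [h2, pow34]
    apply Real.rpow_le_rpow_of_exponent_le (by norm_num)
    have h3 := mul_le_mul_of_nonneg_left hm₀ (show 0 ≤ L + 1 by linarith)
    linarith
  have h3 : 2 * √(3 / 4 : ℝ) ^ (D + 2) = 2 ^ (1 + -(s0 * (dd - 1))) := by
    rw [hp34, Real.rpow_add (by norm_num), Real.rpow_one]
  have h4 : (2 : ℝ) ^ (1 + -(s0 * (dd - 1))) ≤
      2 ^ (-((s0 - G - 3 * a ^ 2 * L / 16) * dd) + (-(G * (dd - 1)) + -((L + 1) * (a ^ 2 * dd / 9)))) := by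
    apply Real.rpow_le_rpow_of_exponent_le (by norm_num)
    have h5 : 0 ≤ a ^ 2 * dd * (L - 2) := mul_nonneg (by linarith) (by linarith)
    have h8 : -((s0 - G - 3 * a ^ 2 * L / 16) * dd) + (-(G * (dd - 1)) + -((L + 1) * (a ^ 2 * dd / 9))) =
        -(s0 * dd) + G + (11 * (a ^ 2 * dd * (L - 2)) + 6 * (a ^ 2 * dd)) / 144 := by
      ring
    rw [h8]
    linarith
  rw [h3, hwt]
  refine h4.trans ?_
  rw [Real.rpow_add (by norm_num), Real.rpow_add (by norm_num)]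
  exact mul_le_mul_of_nonneg_left (mul_le_mul_of_nonneg_left h1 (by positivity)) (by positivity)

private theorem VV_le34 {D : ℕ} (hD : 1 ≤ D) :
    VV (D + 3) ≤ 2 * 2 ^ (3 * s0) * ((D : ℝ) + 3) * 2 ^ (-(s0 * ((D : ℝ) + 3))) := by
  have hD' : (1 : ℝ) ≤ D := by exact_mod_cast hD
  unfold VV
  rw [show D + 3 - 3 = D by omega]
  have h1 : √(2 * (D : ℝ)) ≤ 2 * ((D : ℝ) + 3) := by
    apply Real.sqrt_le_iff.2 ⟨by linarith, ?_⟩
    nlinarith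
  have h2 : √(3 / 4 : ℝ) ^ D = 2 ^ (3 * s0) * 2 ^ (-(s0 * ((D : ℝ) + 3))) := by
    rw [sqrt_34, pow34, ← Real.rpow_add (by norm_num)]
    congr 1
    ring
  rw [h2]
  calc √(2 * (D : ℝ)) * (2 ^ (3 * s0) * 2 ^ (-(s0 * ((D : ℝ) + 3)))) ≤
      2 * ((D : ℝ) + 3) * (2 ^ (3 * s0) * 2 ^ (-(s0 * ((D : ℝ) + 3)))) :=
        mul_le_mul_of_nonneg_right h1 (by positivity)
    _ = _ := by ring

/-- the density -/
theorem exists_densK {η : ℝ} (hη0 : 0 ≤ η) (hη : η < s0) : ∃ d₀ : ℕ, ∀ d : ℕ, d₀ ≤ d → 4 ≤ d ∧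
    ∃ (g : ℝ → ℝ) (r : ℝ), 0 ≤ r ∧ r * 2 ^ (η * d) ≤ Real.log 2 ∧ Measurable g ∧ (∀ t, 0 ≤ g t) ∧
      (∀ t, g t ≤ 1 + r) ∧ (∀ t, 1 / 2 < t → g t = 0) ∧ ∫ t, g t ∂(den d) = 1 ∧
      ∀ j, 1 ≤ j → -((1 / 2) * 2 ^ (-((s0 + (s0 - η) ^ 2 / 10) * d))) ≤
        ∫ t, g t * (PP d j).eval t ∂(den d) := by
  have hs0 := s0_pos34
  have hs1 := s0_lt34
  set a : ℝ := s0 - η with ha
  have ha0 : 0 < a := by linarith
  have ha4 : a < 1 / 4 := by linarith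
  have hln : 0 < Real.log 2 := Real.log_pos (by norm_num)
  obtain ⟨L, G, hL2, hLa, hGa, hG0, hGD⟩ := numbers34 ha0 ha4
  set η' : ℝ := s0 - G - 3 * a ^ 2 * L / 16 with hη'
  have hηη : a / 4 ≤ η' - η := by rw [hη']; linarith
  set C : ℝ := 16 * 2 ^ (G + 3 * L * a ^ 2 / 4 + 2 * L) with hC
  have hC0 : 0 < C := by positivity
  obtain ⟨d₀, hd₀⟩ := eventually_atTop.1 (((ev34 (256 + C) (c := a ^ 2 / 90) (by positivity) one_pos).and
    ((ev34 1 (c := a / 4) (by positivity) (show (0 : ℝ) < Real.log 2 / 2 by positivity)).and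
    ((ev34 (6 * 2 ^ (3 * s0)) (c := a) ha0 (show (0 : ℝ) < Real.log 2 / 2 by positivity)).and
    (ev34 (2 * 2 ^ (3 * s0)) (c := s0) hs0 (show (0 : ℝ) < 1 / 4 by norm_num))))).and
    ((tendsto_natCast_atTop_atTop (R := ℝ)).eventually (eventually_ge_atTop (36 / a ^ 2))))
  refine ⟨max d₀ 4, fun d hd => ?_⟩
  have hd4 : 4 ≤ d := (le_max_right _ _).trans hd
  obtain ⟨⟨e1, e2, e3, e4⟩, e5⟩ := hd₀ d ((le_max_left _ _).trans hd)
  refine ⟨hd4, ?_⟩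
  obtain ⟨D, rfl⟩ : ∃ D, d = D + 3 := ⟨d - 3, by omega⟩
  have hD : 1 ≤ D := by omega
  have hDr : (1 : ℝ) ≤ D := by exact_mod_cast hD
  push_cast at e1 e2 e3 e4 e5 ⊢
  have h36 : 36 ≤ a ^ 2 * ((D : ℝ) + 3) := by
    rw [div_le_iff₀ (by positivity)] at e5
    linarith
  have ha16 : a ^ 2 ≤ 1 / 16 := by nlinarith
  set r : ℝ := 2 ^ (-(η' * ((D : ℝ) + 3))) with hr
  have hr0 : 0 ≤ r := by positivity
  have hη'0 : 0 ≤ η' := by linarith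
  have hr1 : r ≤ 1 := by
    rw [hr]
    apply Real.rpow_le_one_of_one_le_of_nonpos (by norm_num)
    have : 0 ≤ η' * ((D : ℝ) + 3) := by positivity
    linarith
  have hVV := VV_le34 hD
  have hV4 : VV (D + 3) ≤ 1 / 4 := hVV.trans e4
  -- the integer parameters
  obtain ⟨m₀, hm1, hm2⟩ : ∃ m₀ : ℕ, (m₀ : ℝ) ≤ a ^ 2 * ((D : ℝ) + 3) / 9 ∧
      a ^ 2 * ((D : ℝ) + 3) / 9 < m₀ + 1 :=
    ⟨_, Nat.floor_le (by positivity), Nat.lt_floor_add_one _⟩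
  obtain ⟨M', hM1, hM2⟩ : ∃ M' : ℕ, (M' : ℝ) ≤ a ^ 2 * (D : ℝ) / 8 ∧ a ^ 2 * (D : ℝ) / 8 < M' + 1 :=
    ⟨_, Nat.floor_le (by positivity), Nat.lt_floor_add_one _⟩
  obtain ⟨M, hMa, hMb⟩ : ∃ M : ℕ, 2 * M ≤ m₀ ∧ m₀ ≤ 2 * M + 1 := ⟨m₀ / 2, by omega, by omega⟩
  have hMc : (m₀ : ℝ) ≤ 2 * M + 1 := by exact_mod_cast hMb
  have h4 : a ^ 2 * ((D : ℝ) + 3) ≤ 1 / 16 * ((D : ℝ) + 3) := mul_le_mul_of_nonneg_right ha16 (by linarith)
  have hMm : 8 * M ≤ D + 1 := by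
    have h1 : 4 * m₀ ≤ D + 1 := by
      have h2 : 4 * (m₀ : ℝ) ≤ D + 1 := by linarith
      exact_mod_cast h2
    omega
  have hN1 := small34 hD hL2 hLa hGa hG0 h36 hm1
  rw [← hη', ← hr] at hN1
  set E : ℝ := 2 ^ (-((s0 + a ^ 2 / 10) * ((D : ℝ) + 3))) with hE
  have hE0 : 0 < E := by positivity
  have ht1 := term1_34 hD (a := a) (M := M) (by linarith)
  have ht2 := term2_34 hD hL2 hLa hGa (M' := M') (by linarith)
  rw [← hη', ← hr, ← hE, ← hC] at ht2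
  rw [← hE] at ht1
  have hsmall : 2 * √(2 * ((D : ℝ) + 1)) * (2 * √(3 / 4) ^ (D + 2) * (1 / 4) ^ M + r * wt (D + 2) a * a ^ (2 * M')) ≤
      (1 / 2 * E) / 2 := by
    have h1 : (256 + C) * ((D : ℝ) + 3) * 2 ^ (-(a ^ 2 / 90 * ((D : ℝ) + 3))) * E ≤ 1 * E :=
      mul_le_mul_of_nonneg_right e1 hE0.le
    linarith
  have hm5 : 4 * (m₀ : ℝ) ≤ ((D : ℝ) + 5) * a ^ 2 := by
    have h6 : ((D : ℝ) + 5) * a ^ 2 = a ^ 2 * ((D : ℝ) + 3) + 2 * a ^ 2 := by ring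
    have h7 : 0 ≤ a ^ 2 := sq_nonneg a
    linarith
  have hm6 : 8 * (M' : ℝ) ≤ ((D : ℝ) + 5) * a ^ 2 := by
    have h6 : ((D : ℝ) + 5) * a ^ 2 = a ^ 2 * (D : ℝ) + 5 * a ^ 2 := by ring
    have h7 : 0 ≤ a ^ 2 := sq_nonneg a
    linarith
  obtain ⟨g, g1, g2, g3, g4, g5, g6⟩ := dens_props hD ha0 (by linarith) hr0 hr1 hV4 (ε := 1 / 2 * E) (by positivity)
    (fun j => (neg_le_neg hsmall).trans (caps_bound hD ha0 (by linarith) hr0 hr1 (m₀ := m₀) (M := M) (M' := M')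
      hm5 hN1 (by omega) hMm hm6 j))
  refine ⟨g, r + 3 * VV (D + 3), by have := (VV_pos (d := D + 3) (by omega)).le; linarith, ?_, g1, g2, g3, g4, g5, g6⟩
  have h1 : r * 2 ^ (η * ((D : ℝ) + 3)) ≤ Real.log 2 / 2 := by
    have h2 : r * 2 ^ (η * ((D : ℝ) + 3)) = 2 ^ (-((η' - η) * ((D : ℝ) + 3))) := by
      rw [hr, ← Real.rpow_add (by norm_num)]
      congr 1
      ring
    have h3 : (2 : ℝ) ^ (-((η' - η) * ((D : ℝ) + 3))) ≤ 1 * ((D : ℝ) + 3) * 2 ^ (-(a / 4 * ((D : ℝ) + 3))) := by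
      have h4 : (2 : ℝ) ^ (-((η' - η) * ((D : ℝ) + 3))) ≤ 2 ^ (-(a / 4 * ((D : ℝ) + 3))) := by
        apply Real.rpow_le_rpow_of_exponent_le (by norm_num)
        have := mul_le_mul_of_nonneg_right hηη (show 0 ≤ (D : ℝ) + 3 by linarith)
        linarith
      refine h4.trans ?_
      rw [one_mul]
      exact le_mul_of_one_le_left (by positivity) (by linarith)
    rw [h2]
    exact h3.trans e2
  have h2 : 3 * VV (D + 3) * 2 ^ (η * ((D : ℝ) + 3)) ≤ Real.log 2 / 2 := by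
    have h3 : 3 * VV (D + 3) * 2 ^ (η * ((D : ℝ) + 3)) ≤
        3 * (2 * 2 ^ (3 * s0) * ((D : ℝ) + 3) * 2 ^ (-(s0 * ((D : ℝ) + 3)))) * 2 ^ (η * ((D : ℝ) + 3)) :=
      mul_le_mul_of_nonneg_right (mul_le_mul_of_nonneg_left hVV (by norm_num)) (by positivity)
    have h4 : 3 * (2 * 2 ^ (3 * s0) * ((D : ℝ) + 3) * 2 ^ (-(s0 * ((D : ℝ) + 3)))) * 2 ^ (η * ((D : ℝ) + 3)) =
        6 * 2 ^ (3 * s0) * ((D : ℝ) + 3) * 2 ^ (-(a * ((D : ℝ) + 3))) := by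
      have h5 : (2 : ℝ) ^ (-(a * ((D : ℝ) + 3))) = 2 ^ (-(s0 * ((D : ℝ) + 3))) * 2 ^ (η * ((D : ℝ) + 3)) := by
        rw [← Real.rpow_add (by norm_num)]
        congr 1
        rw [ha]
        ring
      rw [h5]
      ring
    rw [h4] at h3
    exact h3.trans e3
  rw [add_mul]
  linarith

/-- the barrier for `k ≤ 2^(η d)` -/
theorem kpoint_barrierK {η : ℝ} (hη0 : 0 ≤ η) (hη : η < Real.logb 2 (2 / √3)) : ∃ d₀ : ℕ, ∀ d : ℕ,
    d₀ ≤ d → ∀ k : ℕ, 2 ≤ k → (k : ℝ) ≤ 2 ^ (η * d) →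
    ∀ (T : Finset (Sph d) → Sph d → Sph d → ℝ) (lam : ℝ), IsFeasible d k T lam →
      (2 / √3) ^ d * (2 : ℝ) ^ ((Real.logb 2 (2 / √3) - η) ^ 2 / 10 * d) ≤ lam := by
  obtain ⟨d₀, h⟩ := exists_densK hη0 hη
  refine ⟨d₀, fun d hd k hk hkd T lam hf => ?_⟩
  obtain ⟨hd4, g, r, hr0, hrη, hgm, hg0, hg1, hgz, hI, hgc⟩ := h d hd
  have : NeZero d := ⟨by omega⟩
  set e : ℝ := (s0 - η) ^ 2 / 10 with he
  have hN : (2 / √3) ^ d * (2 : ℝ) ^ (e * d) = 2 ^ ((s0 + e) * d) := by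
    rw [← two_rpow_s034, ← Real.rpow_natCast, ← Real.rpow_mul (by norm_num),
      ← Real.rpow_add (by norm_num)]
    congr 1
    ring
  change (2 / √3) ^ d * (2 : ℝ) ^ (e * d) ≤ lam
  rw [hN]
  set N : ℝ := 2 ^ ((s0 + e) * d) with hNdef
  have hN0 : 0 < N := by positivity
  have hEN : (2 : ℝ) ^ (-((s0 + e) * d)) * N = 1 := by
    rw [hNdef, ← Real.rpow_add (by norm_num), neg_add_cancel, Real.rpow_zero]
  have hrk : r * k ≤ Real.log 2 := (mul_le_mul_of_nonneg_left hkd hr0).trans hrη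
  have hexp : (1 + r) ^ (k - 2) ≤ 2 := by
    calc (1 + r) ^ (k - 2) ≤ (1 + r) ^ k := pow_le_pow_right₀ (by linarith) (by omega)
      _ ≤ (Real.exp r) ^ k := by
        gcongr
        have := Real.add_one_le_exp r
        linarith
      _ = Real.exp (r * k) := by rw [← Real.exp_nat_mul, mul_comm]
      _ ≤ Real.exp (Real.log 2) := Real.exp_le_exp.2 hrk
      _ = 2 := Real.exp_log (by norm_num)
  have hεB : (1 / 2 * (2 : ℝ) ^ (-((s0 + e) * d))) * (N * (1 + r) ^ (k - 2)) ≤ 1 := by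
    have h1 : (1 / 2 * (2 : ℝ) ^ (-((s0 + e) * d))) * (N * (1 + r) ^ (k - 2)) =
        1 / 2 * ((2 : ℝ) ^ (-((s0 + e) * d)) * N) * (1 + r) ^ (k - 2) := by ring
    rw [h1, hEN]
    linarith
  exact kpoint_bound (by omega) hk hf hgm hg0 hr0 hg1 hI hgz (by positivity) hgc hN0 hεB

end Pool.Agent.Helper34.KU
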